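import Pool.Agent.Work.MP_55ff09_co.Final
import Pool.Agent.Work.MP_55ff09_co.T
import Pool.Agent.Work.MP_55ff09_co.I
import Pool.Agent.Work.MP_55ff09_co.TC
import Pool.Agent.Work.MP_55ff09_co.SP
import Pool.Agent.Work.MP_55ff09_co.SE
import Pool.Agent.Work.MP_55ff09_co.LG
import Pool.Agent.Work.MP_55ff09_co.PG
import Pool.Agent.Work.MP_55ff09_co.ST
import Pool.Agent.Work.MP_55ff09_co.BL
import Pool.Agent.Work.MP_55ff09_co.BT
import Pool.Agent.Work.MP_55ff09_co.LI
import Pool.Agent.Work.MP_55ff09_co.BG
import Pool.Agent.Work.MP_55ff09_co.AR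
import Pool.Agent.Work.MP_55ff09_co.LO
import Pool.Agent.Work.MP_55ff09_co.NL
import Pool.Agent.Work.MP_55ff09_co.MN
import Pool.Agent.Work.MP_55ff09_co.BF

/-!
Bounded degree graphs excluding an arbitrary induced minor `H`: no large grid is an induced minor
of the vertices at distance `2, ..., ℓ` from a connected set, in particular of `ℓ + 1` consecutive
breadth first search layers.
-/

namespace Pool.Agent.IM55.Old

open Pool.Agent.IM55

theorem annuli_exclude_grids (m : ℕ) (H : SimpleGraph (Fin m)) (Δ ℓ : ℕ) :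
    ∃ M : ℕ, ∀ (V : Type) [Finite V] (G : SimpleGraph V), ¬ IsInducedMinor H G →
      (∀ v, (G.neighborSet v).ncard ≤ Δ) →
      (∀ S : Set V, (G.induce S).Connected →
        ¬ IsInducedMinor (grid M) (G.induce (annulus G S ℓ))) ∧
      (G.Connected → ∀ (r : V) (i : ℕ),
        ¬ IsInducedMinor (grid M) (G.induce {v | i ≤ G.dist r v ∧ G.dist r v ≤ i + ℓ})) := by
  have hSE := claimSelect claimTrans claimInterval
  have hLK := claimLink (claimLinkStep claimSpine (claimLegs hSE) claimPigeon)
  have hAR := claimArray (claimBlockG claimBlock (claimBlockT claimBlock) claimLift) claimLift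
  have hLO := claimLocal hLK claimTouchCard hAR
  have hNL := claimNonlocal claimTrans claimBall claimTouchCard hAR
  have hMN := claimMain hLO hNL
  exact final_of hMN (claimBFS hMN) m H Δ ℓ

end Pool.Agent.IM55.Old
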